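import Pool.Agent.Lib.MP_b5021c_nt.IfaceS2
import Pool.Agent.Lib.MP_b5021c_nt.B.H49.Drb

/-!
# Board b5, row T_DR7: the drop bound with powers of `√3`
-/

namespace Pool.Agent.B5.H75

open Pool.Agent.B5 Pool.Agent.B5.H49
open scoped LaurentPolynomial

/-- The pointwise inequality. -/
theorem dr7_pointwise (hSec : SecS) (hAs : AsanoS) (hPoly : PolyS) (hEv : EvRS)
    (O : Type) [CommRing O] [IsDomain O] [IsPrincipalIdealRing O] [Coef O]
    (P L : Type) [Fintype P] [DecidableEq P] [AddCommGroup L] [Module.Free ℤ L]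
    [Module.Finite ℤ L] (phi : L →+ (P → ℤ)) (D : AO O L) (eta : L → (RO O)ˣ) (g : ℕ)
    (S : Fin (g + 1) → L) (hphi : Function.Injective phi) (hbin : ∀ a ∈ supp D, Bin phi a)
    (hst : Stable D) (hz : ∀ z : Circle, evR z (D.coeff 0) ≠ 0) (hray : ∀ i, Ray D (S i))
    (hd : ∀ i j, i ≠ j → ∀ p, phi (S i) p = 0 ∨ phi (S j) p = 0)
    (hI : ∀ I : Finset (Fin (g + 1)), I.Nonempty →
      (∏ i ∈ I, (eta (S i) : RO O)) * D.coeff (∑ i ∈ I, S i) =
        (-1) ^ (I.card + 1) * ((eta (S 0) : RO O) * D.coeff (S 0))) (hg : 5 ≤ g)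
    (z : Circle) (hV : evR z (D.coeff 0 + (eta (S 0) : RO O) * D.coeff (S 0)) ≠ 0) :
    Real.sqrt 3 ^ (g + 1) * ‖evR z ((eta (S 0) : RO O) * D.coeff (S 0))‖ ≤
      ‖evR z (D.coeff 0 + (eta (S 0) : RO O) * D.coeff (S 0))‖ := by
  have hbS : ∀ i, Bin phi (S i) := fun i => hbin _ (hray i).1
  obtain ⟨hw, hc⟩ := hPoly O P L phi D hphi hbin hst z (hz z)
  have h1 := hAs P (cfz phi z D) hw (g + 1) (fun i => ports phi (S i)) (by
    intro i j hij
    rw [Finset.disjoint_left]
    intro p hp hp'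
    have e1 : phi (S i) p = 1 := (Finset.mem_filter.1 hp).2
    have e2 : phi (S j) p = 1 := (Finset.mem_filter.1 hp').2
    rcases hd i j hij p with h | h
    · rw [e1] at h; exact one_ne_zero h
    · rw [e2] at h; exact one_ne_zero h) (by
    intro i
    have h1 : phi (S i) ≠ 0 := fun h => (hray i).2.1 (hphi (by rw [h, map_zero]))
    obtain ⟨p, hp⟩ := Function.ne_iff.1 h1
    refine ⟨p, Finset.mem_filter.2 ⟨Finset.mem_univ _, ?_⟩⟩
    rcases hbS i p with h | h
    · exact absurd h hp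
    · exact h)
  have h2 : ∀ I : Finset (Fin (g + 1)), cfz phi z D (I.biUnion fun i => ports phi (S i)) =
      evR z (D.coeff (∑ i ∈ I, S i)) := fun I => hc _ _ (phi_sum phi _ S hbS hd I)
  have hunit : ∀ u : (RO O)ˣ, ‖evR z (u : RO O)‖ = 1 := fun u => (hEv O).2.1 z _ u.isUnit
  set A : ℂ := evR z ((eta (S 0) : RO O) * D.coeff (S 0)) with hA
  set V : ℂ := evR z (D.coeff 0 + (eta (S 0) : RO O) * D.coeff (S 0)) with hVdef
  have hD0 : evR z (D.coeff 0) = V - A := by
    rw [hVdef, hA, map_add, add_sub_cancel_right]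
  by_contra hcon
  push Not at hcon
  have hA0 : A ≠ 0 := by
    intro h0
    rw [h0, norm_zero, mul_zero] at hcon
    exact absurd hcon (not_lt.2 (norm_nonneg V))
  obtain ⟨y, hy, hyw⟩ := hSec (g + 1) (V / A) (by omega) (div_ne_zero hV hA0) (by
    rw [norm_div, div_lt_iff₀ (norm_pos_iff.2 hA0)]
    exact hcon)
  refine h1 (fun i => evR z (eta (S i) : RO O) * y) (fun i => by
    rw [norm_mul, hunit, one_mul]; exact hy) ?_
  have h3 : ∀ I : Finset (Fin (g + 1)),
      cfz phi z D (I.biUnion fun i => ports phi (S i)) *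
        ∏ i ∈ I, (evR z (eta (S i) : RO O) * y) =
      (if I = ∅ then V else 0) + -A * ((-y) ^ I.card * 1 ^ (Fintype.card (Fin (g + 1)) - I.card)) := by
    intro I
    rw [h2, one_pow, mul_one]
    rcases I.eq_empty_or_nonempty with rfl | hne
    · rw [Finset.sum_empty, Finset.prod_empty, if_pos rfl, Finset.card_empty, pow_zero, hD0]
      ring
    · rw [if_neg hne.ne_empty, Finset.prod_mul_distrib, Finset.prod_const]
      have a1 := congrArg (evR z) (hI I hne)
      rw [map_mul, map_prod, map_mul (evR z) ((-1) ^ (I.card + 1)), ← hA, map_pow, map_neg,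
        map_one] at a1
      have e : (-y) ^ I.card = (-1) ^ I.card * y ^ I.card := by rw [← mul_pow]; ring
      rw [e]
      rw [pow_succ] at a1
      linear_combination y ^ I.card * a1
  rw [Finset.sum_congr rfl (fun I _ => h3 I), Finset.sum_add_distrib, Finset.sum_ite_eq',
    if_pos (Finset.mem_univ _), ← Finset.mul_sum, Fintype.sum_pow_mul_eq_add_pow,
    Fintype.card_fin]
  have e2 : (-y + 1) ^ (g + 1) = V / A := by rw [← hyw]; congr 1; ring
  rw [e2]
  field_simp
  ring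

/-- (DR7) -/
theorem dr7 (hSec : SecS) (hAs : AsanoS) (hPoly : PolyS) (hEv : EvRS) (hZf : ZfinS)
    (hMm : MmonoS) (hMu : MmulS) : Dr7S := by
  intro O _ _ _ _ P L _ _ _ _ _ phi D eta g S hphi hbin hst hz hray hd hI hV hg
  have hq0 : (eta (S 0) : RO O) * D.coeff (S 0) ≠ 0 :=
    mul_ne_zero (eta (S 0)).ne_zero (hray 0).1
  have hpos : (0 : ℝ) < Real.sqrt 3 ^ (g + 1) := by positivity
  have key := hMm O (D.coeff 0 + (eta (S 0) : RO O) * D.coeff (S 0))
    ((eta (S 0) : RO O) * D.coeff (S 0)) (Real.sqrt 3 ^ (g + 1)) hV hq0 hpos ?_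
  · have h1 := (hMu O).2.1 ((eta (S 0) : RO O) * D.coeff (S 0))
    calc Real.sqrt 3 ^ (g + 1) = Real.sqrt 3 ^ (g + 1) * 1 := (mul_one _).symm
      _ ≤ Real.sqrt 3 ^ (g + 1) * M ((eta (S 0) : RO O) * D.coeff (S 0)) :=
        mul_le_mul_of_nonneg_left h1 hpos.le
      _ ≤ _ := key
  · have hclosed : IsClosed {z : Circle |
        Real.sqrt 3 ^ (g + 1) * ‖evR z ((eta (S 0) : RO O) * D.coeff (S 0))‖ ≤
        ‖evR z (D.coeff 0 + (eta (S 0) : RO O) * D.coeff (S 0))‖} := by
      apply isClosed_le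
      · exact continuous_const.mul ((hEv O).2.2.2 _).norm
      · exact ((hEv O).2.2.2 _).norm
    have hdense := dense_compl_finite _ (hZf O _ hV)
    have hsub : {z : Circle | evR z (D.coeff 0 + (eta (S 0) : RO O) * D.coeff (S 0)) = 0}ᶜ ⊆
        {z : Circle | Real.sqrt 3 ^ (g + 1) * ‖evR z ((eta (S 0) : RO O) * D.coeff (S 0))‖ ≤
        ‖evR z (D.coeff 0 + (eta (S 0) : RO O) * D.coeff (S 0))‖} := by
      intro z hz'
      exact dr7_pointwise hSec hAs hPoly hEv O P L phi D eta g S hphi hbin hst hz hray hd hI hg z hz'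
    intro z
    have h2 : (Set.univ : Set Circle) ⊆ {z : Circle |
        Real.sqrt 3 ^ (g + 1) * ‖evR z ((eta (S 0) : RO O) * D.coeff (S 0))‖ ≤
        ‖evR z (D.coeff 0 + (eta (S 0) : RO O) * D.coeff (S 0))‖} := by
      rw [← hdense.closure_eq]
      exact closure_minimal hsub hclosed
    exact h2 (Set.mem_univ z)

end Pool.Agent.B5.H75
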