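import Pool.Agent.Lib.MP_b5021c_nt.IfaceS1
import Pool.Agent.Lib.MP_b5021c_nt.B.H36.H1c
import Pool.Agent.Lib.MP_b5021c_nt.B.H36.Evr

/-!
# MP_b5021c_nt, board b5, row S_PUR: a pure small factor on an extreme ray
-/

namespace Pool.Agent.B5.H75

open scoped LaurentPolynomial
open Pool.Agent.B5 Pool.Agent.B5.H36

/-- Adjusting the phase. -/
theorem exists_phase (B C : ℂ) (r : ℝ) (hr : 0 ≤ r) :
    ∃ y : ℂ, ‖y‖ ≤ r ∧ ‖B + C * y‖ = ‖B‖ + r * ‖C‖ := by
  rcases eq_or_ne C 0 with rfl | hC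
  · exact ⟨0, by simpa using hr, by simp⟩
  rcases eq_or_ne B 0 with rfl | hB
  · refine ⟨(r : ℂ), ?_, ?_⟩
    · rw [Complex.norm_real, Real.norm_of_nonneg hr]
    · rw [zero_add, norm_zero, zero_add, norm_mul, Complex.norm_real, Real.norm_of_nonneg hr,
        mul_comm]
  · have hB' : (‖B‖ : ℂ) ≠ 0 := by exact_mod_cast norm_ne_zero_iff.2 hB
    have n1 : ‖(B / (‖B‖ : ℂ) : ℂ)‖ = 1 := by
      rw [norm_div, Complex.norm_real, norm_norm, div_self (norm_ne_zero_iff.2 hB)]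
    have n2 : ‖((‖C‖ : ℂ) / C : ℂ)‖ = 1 := by
      rw [norm_div, Complex.norm_real, norm_norm, div_self (norm_ne_zero_iff.2 hC)]
    refine ⟨(r : ℂ) * (B / (‖B‖ : ℂ)) * ((‖C‖ : ℂ) / C), ?_, ?_⟩
    · rw [norm_mul, norm_mul, n1, n2, mul_one, mul_one, Complex.norm_real, Real.norm_of_nonneg hr]
    · have e : B + C * ((r : ℂ) * (B / (‖B‖ : ℂ)) * ((‖C‖ : ℂ) / C)) =
          B / (‖B‖ : ℂ) * ((‖B‖ + r * ‖C‖ : ℝ) : ℂ) := by
        push_cast
        field_simp
      rw [e, norm_mul, n1, one_mul, Complex.norm_real, Real.norm_of_nonneg (by positivity)]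

/-- Contraction to two blocks. -/
theorem two_blocks (hA : AsanoS) {P : Type} [Fintype P] [DecidableEq P] (p : Finset P → ℂ)
    (hp : ∀ w : P → ℂ, (∀ i, ‖w i‖ < 1) → mae p w ≠ 0) (B₀ B₁ : Finset P)
    (hd : Disjoint B₀ B₁) (h0 : B₀.Nonempty) (h1 : B₁.Nonempty) (x y : ℂ) (hx : ‖x‖ < 1)
    (hy : ‖y‖ < 1) : p ∅ + p B₀ * x + p B₁ * y + p (B₀ ∪ B₁) * (x * y) ≠ 0 := by
  have key := hA P p hp 2 ![B₀, B₁] (by
    intro i j hij
    fin_cases i <;> fin_cases j <;> simp_all [disjoint_comm]) (by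
    intro i
    fin_cases i <;> simp_all) ![x, y] (by
    intro i
    fin_cases i <;> simp_all)
  have hu : (Finset.univ : Finset (Finset (Fin 2))) = {∅, {0}, {1}, {0, 1}} := by decide
  rw [hu, Finset.sum_insert (by decide), Finset.sum_insert (by decide),
    Finset.sum_insert (by decide), Finset.sum_singleton] at key
  simp only [Finset.biUnion_empty, Finset.prod_empty, mul_one, Finset.singleton_biUnion,
    Finset.prod_singleton, Matrix.cons_val_zero, Matrix.cons_val_one, Finset.biUnion_insert,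
    Matrix.cons_val_fin_one, Finset.prod_insert (show (0 : Fin 2) ∉ ({1} : Finset (Fin 2)) by decide)] at key
  rw [← add_assoc, ← add_assoc] at key
  exact key

/-- `A + B x + C x y` zero-free on the bidisc. -/
theorem sum_le (A B C : ℂ) (h : ∀ x y : ℂ, ‖x‖ < 1 → ‖y‖ < 1 → A + B * x + C * (x * y) ≠ 0) :
    ‖B‖ + ‖C‖ ≤ ‖A‖ := by
  by_contra hcon
  push Not at hcon
  obtain ⟨r, hr0, hr1, hr⟩ : ∃ r : ℝ, 0 ≤ r ∧ r < 1 ∧ ‖A‖ < ‖B‖ + r * ‖C‖ := by
    rcases (norm_nonneg C).eq_or_lt with h0 | h0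
    · refine ⟨0, le_rfl, one_pos, ?_⟩
      rw [← h0] at hcon
      linarith
    · refine ⟨max 0 (1 - (‖B‖ + ‖C‖ - ‖A‖) / (2 * ‖C‖)), le_max_left _ _, ?_, ?_⟩
      · apply max_lt one_pos
        have : 0 < (‖B‖ + ‖C‖ - ‖A‖) / (2 * ‖C‖) := div_pos (by linarith) (by linarith)
        linarith
      · have h1 : (1 - (‖B‖ + ‖C‖ - ‖A‖) / (2 * ‖C‖)) * ‖C‖ =
            ‖C‖ - (‖B‖ + ‖C‖ - ‖A‖) / 2 := by
          field_simp
        have h2 := mul_le_mul_of_nonneg_right
          (le_max_right 0 (1 - (‖B‖ + ‖C‖ - ‖A‖) / (2 * ‖C‖))) h0.le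
        rw [h1] at h2
        linarith
  obtain ⟨y, hy, hyn⟩ := exists_phase B C r hr0
  have hlt : ‖A‖ < ‖B + C * y‖ := by rw [hyn]; exact hr
  have hne : B + C * y ≠ 0 := by
    intro h0
    rw [h0, norm_zero] at hlt
    exact absurd hlt (not_lt.2 (norm_nonneg A))
  refine h (-A / (B + C * y)) y ?_ (lt_of_le_of_lt hy hr1) ?_
  · rw [norm_div, norm_neg, div_lt_one (norm_pos_iff.2 hne)]
    exact hlt
  · have : A + B * (-A / (B + C * y)) + C * (-A / (B + C * y) * y) =
        A + (-A / (B + C * y)) * (B + C * y) := by ring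
    rw [this, div_mul_cancel₀ _ hne]
    ring

set_option maxHeartbeats 1000000 in
/-- Row S_PUR. -/
theorem pur (hsm : SmallS) (hG : G0S) (hm : MinS) (hP : PolyS) (hA : AsanoS) (hE : E2S) :
    PurS := by
  intro O _ _ _ _ P L _ _ _ _ _ phi D S i0 eta h c n G hF i b hsmall hpure hbi hray z
  have hcc := hF.cc
  obtain ⟨-, -, hco0, -, -, hpos⟩ := hG O P L phi D S i0 eta h hcc
  have hinj := hcc.dd.inj
  have hbin := hcc.dd.bin
  obtain ⟨hSD, hS0, lam, hlamS, hlam⟩ := hcc.ray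
  have hS := hbin S hSD
  have hpos0 := hpos lam hlamS hlam
  obtain ⟨hunit, ⟨b', hb'0, hsupp, e, he⟩, -⟩ :=
    hsm O P L phi D S i0 eta h c n G hF i hsmall
  have hbb : b' = b := by
    rw [hsupp] at hbi
    rcases hbi with h0 | h0
    · exact absurd h0 hray.2.1
    · exact h0.symm
  subst hbb
  -- `V = (1 - c₁ w^b) q`
  obtain ⟨q, hq⟩ : ∃ q : AO O (Ker (co phi i0)), cl (co phi i0) S h eta D =
      (1 - AddMonoidAlgebra.single b' ((e⁻¹ : (RO O)ˣ) : RO O)) * q := by
    refine ⟨cst ((G i).coeff 0) * cst c * ∏ j ∈ Finset.univ.erase i, G j, ?_⟩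
    rw [hF.eq, ← Finset.mul_prod_erase Finset.univ G (Finset.mem_univ i)]
    conv_lhs => rw [he]
    ring
  have hu : ((e⁻¹ : (RO O)ˣ) : RO O) ≠ 0 := (e⁻¹).ne_zero
  -- lift of `b`
  obtain ⟨α, haD, ha⟩ := exists_lift phi D S i0 eta h hbin b' hray.1
  have hα := hbin α haD
  have prjS : prj (co phi i0) S h S = 0 := by
    apply Subtype.ext
    rw [prj_coe, h, one_smul, sub_self]
    rfl
  have hn1 : α ≠ 0 := by
    rintro rfl
    rw [map_zero] at ha
    exact hray.2.1 ha.symm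
  have hs1 : α ≠ S := by
    rintro rfl
    rw [prjS] at ha
    exact hray.2.1 ha.symm
  have hin : ∀ j, phi S j = 0 → phi α j = 0 := by
    intro j hj
    have e1 := hpure b' hbi j (by simp [OO, hj])
    rw [← ha, prj_coe, map_sub, map_zsmul, Pi.sub_apply, Pi.smul_apply, hj, smul_zero, sub_zero] at e1
    exact e1
  obtain ⟨⟨i₁, hi₁S, hi₁⟩, ⟨j₁, hj₁S, hj₁⟩⟩ := exists_port phi hinj S α hS hα hin hn1 hs1
  -- bounds for `q`
  have bound : ∀ (k : Ker (co phi i0) →+ ℤ) (m : ℤ),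
      (∀ a ∈ supp (cl (co phi i0) S h eta D), m ≤ k a) → ∀ g : Ker (co phi i0), (g = 0 ∨ g = b') →
        ∀ x ∈ supp q, m ≤ k g + k x := by
    intro k m hk g hg x hx
    refine add_bound hm O (Ker (co phi i0)) _ _ k m (by rw [← hq]; exact hk) g ?_ x hx
    rcases hg with rfl | rfl
    · exact supp_one_sub_zero b' hray.2.1 _
    · exact supp_one_sub_self g hray.2.1 _ hu
  have lp1 : 0 < lam.comp (incl (Ker (co phi i0))) b' := hpos0 b'
    (Finsupp.mem_support_iff.2 hray.1) hray.2.1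
  have form : ∀ x : Ker (co phi i0), (cl (co phi i0) S h eta D).coeff x =
      q.coeff x - ((e⁻¹ : (RO O)ˣ) : RO O) * q.coeff (x - b') := by
    intro x
    rw [hq, coeff_one_sub]
  have qneg : q.coeff (-b') = 0 := by
    by_contra hcon
    have := bound (lam.comp (incl (Ker (co phi i0)))) 0 (by
      intro a ha
      by_cases h0 : a = 0
      · rw [h0, map_zero]
      · exact (hpos0 a (Finsupp.mem_support_iff.2 ha) h0).le) 0 (Or.inl rfl) (-b') hcon
    rw [map_zero, map_neg] at this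
    linarith
  have vneg : (cl (co phi i0) S h eta D).coeff (-b') = 0 := by
    by_contra hcon
    have := hpos0 (-b') (Finsupp.mem_support_iff.2 hcon) (neg_ne_zero.2 hray.2.1)
    rw [map_neg] at this
    linarith
  have q0 : q.coeff 0 = (cl (co phi i0) S h eta D).coeff 0 := by
    rw [form 0, zero_sub, qneg, mul_zero, sub_zero]
  have qb : q.coeff b' = 0 := by
    by_contra hcon
    have hbd := bound ((co phi j₁ - co phi i₁).comp (incl (Ker (co phi i0)))) (-1) (by
      intro a ha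
      obtain ⟨β, hβ, hβa⟩ := exists_lift phi D S i0 eta h hbin a ha
      change -1 ≤ phi (a : L) j₁ - phi (a : L) i₁
      rw [← hβa, prj_coe, map_sub, map_zsmul, Pi.sub_apply, Pi.sub_apply, Pi.smul_apply,
        Pi.smul_apply, hi₁S, hj₁S]
      rcases hbin β hβ i₁ with e1 | e1 <;> rcases hbin β hβ j₁ with e2 | e2 <;> rw [e1, e2] <;> simp)
      b' (Or.inr rfl) b' hcon
    have ev : (co phi j₁ - co phi i₁).comp (incl (Ker (co phi i0))) b' = -1 := by
      change phi (b' : L) j₁ - phi (b' : L) i₁ = -1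
      rw [← ha, prj_coe, map_sub, map_zsmul, Pi.sub_apply, Pi.sub_apply, Pi.smul_apply,
        Pi.smul_apply, hi₁S, hj₁S, hi₁, hj₁]
      ring
    rw [ev] at hbd
    norm_num at hbd
  have vb : (cl (co phi i0) S h eta D).coeff b' =
      -(((e⁻¹ : (RO O)ˣ) : RO O) * (D.coeff 0 + (eta : RO O) * D.coeff S)) := by
    rw [form b', qb, sub_self, q0, hco0, zero_sub]
  -- back to `D`
  have hDα : D.coeff α = ((eta ^ (-(co phi i0 α)) : (RO O)ˣ) : RO O) *
      (cl (co phi i0) S h eta D).coeff b' := by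
    rw [← ha, clc_proper phi D S i0 eta h hinj hbin hS α hα hin hn1 hs1, ← mul_assoc,
      ← Units.val_mul, ← zpow_add, neg_add_cancel, zpow_zero, Units.val_one, one_mul]
  have hα' : Bin phi (S - α) := by
    intro i
    rw [map_sub, Pi.sub_apply]
    have e3 := hin i
    rcases hS i with a3 | a3
    · left; rw [a3, e3 a3, sub_zero]
    · rcases hα i with a1 | a1
      · right; rw [a3, a1, sub_zero]
      · left; rw [a3, a1, sub_self]
  have hDα' : D.coeff (S - α) = 0 := by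
    have hin' : ∀ j, phi S j = 0 → phi (S - α) j = 0 := by
      intro i hi
      rw [map_sub, Pi.sub_apply, hi, hin i hi, sub_zero]
    have z1 : S - α ≠ 0 := fun h0 => hs1 (sub_eq_zero.1 h0).symm
    have z2 : S - α ≠ S := fun h0 => hn1 (sub_eq_self.1 h0)
    have e1 := clc_proper phi D S i0 eta h hinj hbin hS (S - α) hα' hin' z1 z2
    have e2 : prj (co phi i0) S h (S - α) = -b' := by rw [map_sub, prjS, ha, zero_sub]
    rw [e2, vneg] at e1
    exact ((Units.mul_right_eq_zero _).1 e1.symm)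
  -- at the point `z`
  obtain ⟨hz0, -⟩ := hE O P L phi D hcc.dd hcc.two
  obtain ⟨hpoly, hcf⟩ := hP O P L phi D hinj hbin hcc.dd.st z (hz0 z)
  have nu : ∀ u : (RO O)ˣ, ‖evR z (u : RO O)‖ = 1 := fun u => (evrs O).2.1 z _ u.isUnit
  set B₀ : Finset P := Finset.univ.filter fun i => phi α i = 1 with hB₀
  set B₁ : Finset P := Finset.univ.filter fun i => phi (S - α) i = 1 with hB₁
  have c0 : cfz phi z D ∅ = evR z (D.coeff 0) := hcf ∅ 0 (by intro i; simp)
  have cα : cfz phi z D B₀ = evR z (D.coeff α) := by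
    refine hcf B₀ α (fun i => ?_)
    rcases hα i with a1 | a1 <;> simp [hB₀, a1]
  have cα' : cfz phi z D B₁ = 0 := by
    rw [hcf B₁ (S - α) (fun i => by rcases hα' i with a1 | a1 <;> simp only [hB₁, Finset.mem_filter, Finset.mem_univ, true_and, a1] <;> simp), hDα', map_zero]
  have cS : cfz phi z D (B₀ ∪ B₁) = evR z (D.coeff S) := by
    refine hcf _ S (fun i => ?_)
    simp only [hB₀, hB₁, Finset.mem_union, Finset.mem_filter, Finset.mem_univ, true_and, map_sub,
      Pi.sub_apply]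
    have e3 := hin i
    rcases hS i with a3 | a3
    · rw [a3, e3 a3]; simp
    · rcases hα i with a1 | a1 <;> rw [a3, a1] <;> simp
  have hdis : Disjoint B₀ B₁ := by
    rw [Finset.disjoint_left]
    intro i h1 h2
    simp only [hB₀, hB₁, Finset.mem_filter, Finset.mem_univ, true_and, map_sub,
      Pi.sub_apply] at h1 h2
    rcases hS i with a3 | a3 <;> omega
  have hle := sum_le (evR z (D.coeff 0)) (evR z (D.coeff α)) (evR z (D.coeff S)) (by
    intro x y hx hy
    have := two_blocks hA (cfz phi z D) hpoly B₀ B₁ hdis ⟨i₁, by simp [hB₀, hi₁]⟩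
      ⟨j₁, by simp [hB₁, hj₁S, hj₁]⟩ x y hx hy
    rwa [c0, cα, cα', cS, zero_mul, add_zero] at this)
  have hnα : ‖evR z (D.coeff α)‖ = ‖evR z (D.coeff 0 + (eta : RO O) * D.coeff S)‖ := by
    rw [hDα, vb, map_mul, map_neg, map_mul, norm_mul, norm_neg, norm_mul, nu, nu, one_mul, one_mul]
  rw [hnα] at hle
  refine le_antisymm hle ?_
  have e1 : evR z (D.coeff 0) = evR z (D.coeff 0 + (eta : RO O) * D.coeff S) -
      evR z (eta : RO O) * evR z (D.coeff S) := by
    rw [map_add, map_mul]; ring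
  calc ‖evR z (D.coeff 0)‖ = ‖evR z (D.coeff 0 + (eta : RO O) * D.coeff S) -
      evR z (eta : RO O) * evR z (D.coeff S)‖ := by rw [← e1]
    _ ≤ ‖evR z (D.coeff 0 + (eta : RO O) * D.coeff S)‖ + ‖evR z (eta : RO O) * evR z (D.coeff S)‖ :=
      norm_sub_le _ _
    _ = _ := by rw [norm_mul, nu, one_mul]

end Pool.Agent.B5.H75
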