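import Pool.Agent.Lib.MP_b5021c_nt.IfaceE3

/-! Board b5, stage 3, chapter E3, row NN3 (helper75): the coefficients of a nonnegative
trigonometric polynomial. Positivity of the mean of `P (1 - Re (w s^k))`; equality would propagate
to all multiples of the exponent, which is impossible for a finite support. -/

namespace Pool.Agent.B5.H75

open MeasureTheory intervalIntegral
open scoped LaurentPolynomial

/-- the integral of a character over the circle -/
lemma int_exp (m : ℤ) :
    ∫ x in (0 : ℝ)..(2 * Real.pi), Complex.exp ((m : ℂ) * Complex.I * (x : ℂ)) =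
      if m = 0 then ((2 * Real.pi : ℝ) : ℂ) else 0 := by
  split_ifs with h
  · subst h
    simp
  · have hc : (m : ℂ) * Complex.I ≠ 0 :=
      mul_ne_zero (by exact_mod_cast h) Complex.I_ne_zero
    rw [integral_exp_mul_complex hc]
    have h1 : Complex.exp ((m : ℂ) * Complex.I * ((2 * Real.pi : ℝ) : ℂ)) = 1 := by
      have : (m : ℂ) * Complex.I * ((2 * Real.pi : ℝ) : ℂ) =
          (m : ℂ) * (2 * (Real.pi : ℂ) * Complex.I) := by push_cast; ring
      rw [this]
      exact Complex.exp_int_mul_two_pi_mul_I m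
    rw [h1]
    simp

lemma cont_exp (m : ℤ) :
    Continuous (fun x : ℝ => Complex.exp ((m : ℂ) * Complex.I * (x : ℂ))) := by
  fun_prop

/-- the trigonometric polynomial -/
noncomputable def gP {L : Type} (s : Finset L) (c : L → ℂ) (mu : L → ℤ) (x : ℝ) : ℂ :=
  ∑ b ∈ s, c b * Complex.exp ((mu b : ℂ) * Complex.I * (x : ℂ))

lemma cont_gP {L : Type} (s : Finset L) (c : L → ℂ) (mu : L → ℤ) :
    Continuous (gP s c mu) := by
  unfold gP
  fun_prop

/-- Fourier coefficients -/
lemma int_gP {L : Type} (s : Finset L) (c : L → ℂ) (mu : L → ℤ) (m : ℤ) :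
    ∫ x in (0 : ℝ)..(2 * Real.pi),
      gP s c mu x * Complex.exp ((m : ℂ) * Complex.I * (x : ℂ)) =
      ∑ b ∈ s, c b * (if mu b + m = 0 then ((2 * Real.pi : ℝ) : ℂ) else 0) := by
  have e1 : ∀ x : ℝ, gP s c mu x * Complex.exp ((m : ℂ) * Complex.I * (x : ℂ)) =
      ∑ b ∈ s, c b * Complex.exp (((mu b + m : ℤ) : ℂ) * Complex.I * (x : ℂ)) := by
    intro x
    unfold gP
    rw [Finset.sum_mul]
    apply Finset.sum_congr rfl
    intro b _
    rw [mul_assoc, ← Complex.exp_add]
    congr 2
    push_cast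
    ring
  rw [intervalIntegral.integral_congr (g := fun x : ℝ => ∑ b ∈ s, c b *
    Complex.exp (((mu b + m : ℤ) : ℂ) * Complex.I * (x : ℂ))) (fun x _ => e1 x)]
  rw [intervalIntegral.integral_finset_sum]
  · apply Finset.sum_congr rfl
    intro b _
    rw [intervalIntegral.integral_const_mul, int_exp]
  · intro b _
    exact (continuous_const.mul (cont_exp _)).intervalIntegrable _ _

lemma pow_sub_one_norm (z : ℂ) (hz : ‖z‖ = 1) (n : ℕ) : ‖z ^ n - 1‖ ≤ n * ‖z - 1‖ := by
  rw [← geom_sum_mul z n, norm_mul]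
  apply mul_le_mul_of_nonneg_right _ (norm_nonneg _)
  refine (norm_sum_le _ _).trans ?_
  simp [norm_pow, hz]

lemma re_of_norm (z : ℂ) (hz : ‖z‖ = 1) : 1 - z.re = ‖z - 1‖ ^ 2 / 2 := by
  have h1 := Complex.sq_norm (z - 1)
  have h2 := Complex.sq_norm z
  rw [hz] at h2
  rw [h1, Complex.normSq_apply]
  rw [Complex.normSq_apply] at h2
  simp only [Complex.sub_re, Complex.sub_im, Complex.one_re, Complex.one_im]
  nlinarith

lemma pow_re (z : ℂ) (hz : ‖z‖ = 1) (n : ℕ) : 1 - (z ^ n).re ≤ (n : ℝ) ^ 2 * (1 - z.re) := by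
  rw [re_of_norm z hz, re_of_norm (z ^ n) (by rw [norm_pow, hz, one_pow])]
  have h1 := pow_sub_one_norm z hz n
  have h2 : ‖z ^ n - 1‖ ^ 2 ≤ (n * ‖z - 1‖) ^ 2 := pow_le_pow_left₀ (norm_nonneg _) h1 2
  rw [mul_pow] at h2
  linarith

/-- the mean of `P (1 - Re z)` for a real trigonometric polynomial -/
lemma mean_re {L : Type} (s : Finset L) (c : L → ℂ) (mu : L → ℤ)
    (hr : ∀ x, (gP s c mu x).im = 0) (w : ℂ) (m : ℤ) :
    ∫ x in (0 : ℝ)..(2 * Real.pi), (gP s c mu x).re *
      (1 - (w * Complex.exp ((m : ℂ) * Complex.I * (x : ℂ))).re) =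
      (∑ b ∈ s, c b * (if mu b + 0 = 0 then ((2 * Real.pi : ℝ) : ℂ) else 0) -
        w * ∑ b ∈ s, c b * (if mu b + m = 0 then ((2 * Real.pi : ℝ) : ℂ) else 0)).re := by
  rw [← int_gP, ← int_gP, ← intervalIntegral.integral_const_mul,
    ← intervalIntegral.integral_sub]
  · have hI : IntervalIntegrable (fun x : ℝ =>
        gP s c mu x * Complex.exp (((0 : ℤ) : ℂ) * Complex.I * (x : ℂ)) -
        w * (gP s c mu x * Complex.exp ((m : ℂ) * Complex.I * (x : ℂ))))
        volume 0 (2 * Real.pi) := by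
      apply Continuous.intervalIntegrable
      exact ((cont_gP s c mu).mul (cont_exp 0)).sub
        (continuous_const.mul ((cont_gP s c mu).mul (cont_exp m)))
    have h3 := Complex.reCLM.intervalIntegral_comp_comm hI
    simp only [Complex.reCLM_apply] at h3
    rw [← h3]
    apply intervalIntegral.integral_congr
    intro x _
    simp only
    have h0 : Complex.exp (((0 : ℤ) : ℂ) * Complex.I * (x : ℂ)) = 1 := by simp
    rw [h0, mul_one]
    have h1 := hr x
    have h2 : w * (gP s c mu x * Complex.exp ((m : ℂ) * Complex.I * (x : ℂ))) =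
        gP s c mu x * (w * Complex.exp ((m : ℂ) * Complex.I * (x : ℂ))) := by ring
    rw [h2, Complex.sub_re, Complex.mul_re (gP s c mu x), h1]
    ring
  · exact ((cont_gP s c mu).mul (cont_exp 0)).intervalIntegrable _ _
  · exact (continuous_const.mul ((cont_gP s c mu).mul (cont_exp m))).intervalIntegrable _ _

lemma exists_w (c : ℂ) : ∃ w : ℂ, ‖w‖ = 1 ∧ (w * c).re = ‖c‖ := by
  by_cases hc : c = 0
  · exact ⟨1, by simp, by simp [hc]⟩
  · refine ⟨(starRingEnd ℂ) c / ‖c‖, ?_, ?_⟩
    · rw [norm_div, RCLike.norm_conj, Complex.norm_real, norm_norm,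
        div_self (norm_ne_zero_iff.2 hc)]
    · have h1 : (starRingEnd ℂ) c / (‖c‖ : ℂ) * c = ((‖c‖ : ℝ) : ℂ) := by
        have h2 : (starRingEnd ℂ) c * c = ((‖c‖ : ℝ) : ℂ) ^ 2 := by
          rw [mul_comm, Complex.mul_conj, Complex.normSq_eq_norm_sq]
          push_cast; ring
        have h3 : ((‖c‖ : ℝ) : ℂ) ≠ 0 := by exact_mod_cast norm_ne_zero_iff.2 hc
        field_simp
        rw [h2]
      rw [h1, Complex.ofReal_re]

/-- The one-dimensional statement. -/
lemma core {L : Type} [DecidableEq L] (s : Finset L) (c : L → ℂ) (mu : L → ℤ) (o : L)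
    (ho : mu o = 0)
    (hinj : ∀ a ∈ insert o s, ∀ b ∈ insert o s, mu a = mu b → a = b)
    (hs : ∀ b, b ∉ s → c b = 0) (hn : ∃ b, c b ≠ 0)
    (hr : ∀ x, (gP s c mu x).im = 0) (hp : ∀ x, 0 ≤ (gP s c mu x).re) :
    0 < (c o).re ∧ ∀ a, a ≠ o → ‖c a‖ < (c o).re := by
  have hpi : 0 < 2 * Real.pi := by positivity
  -- the coefficient sums
  have hco : ∀ a ∈ insert o s, ∑ b ∈ s, c b * (if mu b + -(mu a) = 0 then
      ((2 * Real.pi : ℝ) : ℂ) else 0) = c a * ((2 * Real.pi : ℝ) : ℂ) := by
    intro a ha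
    by_cases has : a ∈ s
    · rw [Finset.sum_eq_single a]
      · rw [if_pos (by ring)]
      · intro b hb hba
        rw [if_neg, mul_zero]
        intro h
        exact hba (hinj b (Finset.mem_insert_of_mem hb) a ha (by linarith))
      · intro h
        exact absurd has h
    · rw [hs a has, zero_mul]
      apply Finset.sum_eq_zero
      intro b hb
      rw [if_neg, mul_zero]
      intro h
      have : b = a := hinj b (Finset.mem_insert_of_mem hb) a ha (by linarith)
      exact has (this ▸ hb)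
  have hco0 : ∑ b ∈ s, c b * (if mu b + 0 = 0 then
      ((2 * Real.pi : ℝ) : ℂ) else 0) = c o * ((2 * Real.pi : ℝ) : ℂ) := by
    have := hco o (Finset.mem_insert_self _ _)
    rw [ho, neg_zero] at this
    exact this
  have hexp : ∀ (w : ℂ) (m : ℤ) (x : ℝ), ‖w‖ = 1 →
      ‖w * Complex.exp ((m : ℂ) * Complex.I * (x : ℂ))‖ = 1 := by
    intro w m x hw
    rw [norm_mul, hw, one_mul]
    have : (m : ℂ) * Complex.I * (x : ℂ) = (((m : ℝ) * x : ℝ) : ℂ) * Complex.I := by
      push_cast; ring
    rw [this, Complex.norm_exp_ofReal_mul_I]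
  -- nonstrict inequality
  have hle : ∀ a ∈ insert o s, ‖c a‖ ≤ (c o).re := by
    intro a ha
    obtain ⟨w, hw, hwc⟩ := exists_w (c a)
    have h1 := mean_re s c mu hr w (-(mu a))
    have h2 : 0 ≤ ∫ x in (0 : ℝ)..(2 * Real.pi), (gP s c mu x).re *
      (1 - (w * Complex.exp (((-(mu a) : ℤ) : ℂ) * Complex.I * (x : ℂ))).re) := by
      apply intervalIntegral.integral_nonneg hpi.le
      intro x _
      apply mul_nonneg (hp x)
      have := Complex.re_le_norm (w * Complex.exp (((-(mu a) : ℤ) : ℂ) * Complex.I * (x : ℂ)))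
      rw [hexp w _ x hw] at this
      linarith
    rw [h1, hco0, hco a ha, ← mul_assoc, ← sub_mul, Complex.re_mul_ofReal, Complex.sub_re,
      hwc] at h2
    have h3 := nonneg_of_mul_nonneg_left h2 hpi
    linarith
  have hpos : 0 < (c o).re := by
    by_contra hneg
    push Not at hneg
    obtain ⟨b, hb⟩ := hn
    by_cases hbs : b ∈ s
    · have h1 := hle b (Finset.mem_insert_of_mem hbs)
      have h2 : 0 < ‖c b‖ := norm_pos_iff.2 hb
      linarith
    · exact hb (hs b hbs)
  refine ⟨hpos, ?_⟩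
  intro a hao
  by_cases has : a ∈ s
  swap
  · rw [hs a has, norm_zero]; exact hpos
  have ha : a ∈ insert o s := Finset.mem_insert_of_mem has
  refine lt_of_le_of_ne (hle a ha) ?_
  intro heq
  have hmua : mu a ≠ 0 := by
    intro h
    exact hao (hinj a ha o (Finset.mem_insert_self _ _) (by rw [h, ho]))
  obtain ⟨w, hw, hwc⟩ := exists_w (c a)
  set n : ℕ := 1 + ∑ b ∈ s, (mu b).natAbs with hnD
  -- the n-th multiple is not in the image of the support
  have hout : ∑ b ∈ s, c b * (if mu b + (n : ℤ) * -(mu a) = 0 then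
      ((2 * Real.pi : ℝ) : ℂ) else 0) = 0 := by
    apply Finset.sum_eq_zero
    intro b hb
    rw [if_neg, mul_zero]
    intro h
    have h1 : mu b = (n : ℤ) * mu a := by linarith
    have h2 : (mu b).natAbs = n * (mu a).natAbs := by
      rw [h1, Int.natAbs_mul, Int.natAbs_natCast]
    have h3 : (mu b).natAbs ≤ ∑ b ∈ s, (mu b).natAbs :=
      Finset.single_le_sum (f := fun b => (mu b).natAbs) (fun _ _ => Nat.zero_le _) hb
    have h4 : 1 ≤ (mu a).natAbs := Int.natAbs_pos.2 hmua
    have h5 : n ≤ n * (mu a).natAbs := Nat.le_mul_of_pos_right n h4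
    omega
  have k1 := mean_re s c mu hr w (-(mu a))
  have k2 := mean_re s c mu hr (w ^ n) ((n : ℤ) * -(mu a))
  rw [hco0, hco a ha, ← mul_assoc, ← sub_mul, Complex.re_mul_ofReal, Complex.sub_re, hwc,
    heq, sub_self, zero_mul] at k1
  rw [hco0, hout, mul_zero, sub_zero, Complex.re_mul_ofReal] at k2
  have k3 : ∫ x in (0 : ℝ)..(2 * Real.pi), (gP s c mu x).re *
      (1 - (w ^ n * Complex.exp ((((n : ℤ) * -(mu a) : ℤ) : ℂ) * Complex.I * (x : ℂ))).re) ≤
      ∫ x in (0 : ℝ)..(2 * Real.pi), (n : ℝ) ^ 2 * ((gP s c mu x).re *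
      (1 - (w * Complex.exp (((-(mu a) : ℤ) : ℂ) * Complex.I * (x : ℂ))).re)) := by
    apply intervalIntegral.integral_mono_on hpi.le
    · apply Continuous.intervalIntegrable
      exact (Complex.continuous_re.comp (cont_gP s c mu)).mul (continuous_const.sub
        (Complex.continuous_re.comp (continuous_const.mul (cont_exp _))))
    · apply Continuous.intervalIntegrable
      exact continuous_const.mul ((Complex.continuous_re.comp (cont_gP s c mu)).mul
        (continuous_const.sub (Complex.continuous_re.comp (continuous_const.mul (cont_exp _)))))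
    · intro x _
      have e1 : w ^ n * Complex.exp ((((n : ℤ) * -(mu a) : ℤ) : ℂ) * Complex.I * (x : ℂ)) =
          (w * Complex.exp (((-(mu a) : ℤ) : ℂ) * Complex.I * (x : ℂ))) ^ n := by
        rw [mul_pow, ← Complex.exp_nat_mul]
        congr 2
        push_cast
        ring
      rw [e1]
      have e2 := pow_re _ (hexp w (-(mu a)) x hw) n
      have e3 := mul_le_mul_of_nonneg_left e2 (hp x)
      linarith
  rw [intervalIntegral.integral_const_mul, k1, mul_zero, k2] at k3
  have := mul_pos hpos hpi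
  linarith

/-- row NN3 -/
theorem nn3 (hG : GenS) : Nn3S := by
  intro L _ _ _ p hp0 hpos
  classical
  obtain ⟨mu, -, -, hinj⟩ := hG L ∅ (insert 0 p.coeff.support) ⊥ 0
    (fun k _ => rfl)
    (by
      intro n a hn ha
      rw [Submodule.mem_bot] at ha ⊢
      exact (smul_eq_zero.1 ha).resolve_left hn)
    (by intro a ha; simp at ha)
    (by
      intro a _ b _ hab
      rw [Submodule.mem_bot] at hab
      exact sub_eq_zero.1 hab)
  have hg : ∀ x : ℝ, gP p.coeff.support (fun a => p.coeff a) (fun a => mu a) x =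
      evC (twist 1 mu (Circle.exp x)) p := by
    intro x
    rw [evC_apply, Finsupp.sum]
    unfold gP
    apply Finset.sum_congr rfl
    intro b _
    congr 1
    change _ = (((1 : AddChar L Circle) b * Circle.exp x ^ (mu b) : Circle) : ℂ)
    rw [AddChar.one_apply, one_mul, Circle.coe_zpow, Circle.coe_exp, ← Complex.exp_int_mul]
    congr 1
    ring
  apply core p.coeff.support (fun a => p.coeff a) (fun a => mu a) 0 (map_zero mu) hinj
  · intro b hb
    simpa using hb
  · by_contra hne
    push Not at hne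
    apply hp0
    apply AddMonoidAlgebra.ext
    apply Finsupp.ext
    intro a
    exact hne a
  · intro x
    rw [hg]
    exact (hpos _).1
  · intro x
    rw [hg]
    exact (hpos _).2

end Pool.Agent.B5.H75
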