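import Pool.Agent.Lib.MP_b5021c_nt.IfaceE6Cr
import Pool.Agent.Lib.MP_b5021c_nt.B.H82.Jv3

/-!
# Board b5, row E6C_SNG: a single load of type A
-/

namespace Pool.Agent.B5.H75

open Pool.Agent.B5
open scoped LaurentPolynomial
open Polynomial
open Pool.Agent.MP_b5021c_nt (Eis)
open Pool.Agent.B5.H82 (bV3_mono one_le_bV3)

theorem sng_big_exp : (1000 : ℝ) ≤ Real.exp 400 := by
  have h1 : (2 : ℝ) ≤ Real.exp 1 := by linarith [Real.add_one_le_exp (1 : ℝ)]
  have h2 : Real.exp 400 = Real.exp 1 ^ 400 := by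
    rw [← Real.exp_nat_mul]
    norm_num
  rw [h2]
  calc (1000 : ℝ) ≤ 2 ^ 10 := by norm_num
    _ ≤ 2 ^ 400 := pow_le_pow_right₀ (by norm_num) (by norm_num)
    _ ≤ Real.exp 1 ^ 400 := by gcongr

/-- A load of type A leads to class `V`. -/
theorem sng_typA {O : Type} [CommRing O] [IsDomain O] [Coef O] {N' : ℝ} {Q V : RO O}
    (h : TypA N' Q V) : ClassV N' V := by
  obtain ⟨n, q, e, -, hV, -, he, hz⟩ := h
  have h0 : e.coeff 0 ≠ 0 := by
    intro h0
    have := hz 0 (by simp)
    rw [← Polynomial.coeff_zero_eq_eval_zero, Polynomial.coeff_map, h0, map_zero] at this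
    exact this rfl
  refine ⟨?_, n + 1, e, hV, he, hz⟩
  rw [← he]
  exact Coef.one_le _ h0

theorem e6c_sng (hFD : FDS) (hNVE : NVES) (hTRE : TreS) (hNBF : NbfS) (hBIG : Big6S) (hJW : Jw3S)
    (hNUM : Num6S) (hMV : MVS) : Sng6S := by
  classical
  intro P L _ _ _ _ _ phi D S i0 eta h θ N' g hFP h2 hRS hθ hP hA hN' hK hg
  have hbexp := sng_big_exp
  have hD := hFP.dd
  have hV : ClassV N' (D.coeff 0 + (eta : RO Eis) * D.coeff S) := sng_typA hA
  have hMV' := (hMV Eis).1 N' _ hV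
  have hMQ : M (D.coeff 0) = θ := ((hMV Eis).2 θ _ hP).2
  have hs3 : (0 : ℝ) ≤ Real.sqrt 3 := Real.sqrt_nonneg _
  have hs3sq : Real.sqrt 3 ^ 2 = 3 := Real.sq_sqrt (by norm_num)
  have hs31 : (1 : ℝ) ≤ Real.sqrt 3 := by nlinarith
  have hθpos : (0 : ℝ) < θ := by linarith
  rcases hNVE N' _ hV with h1 | h1
  · subst h1
    have hK' := hTRE Eis P L phi D S eta θ hD h2 hRS (by linarith) hP hA
    have : 0 ≤ θ⁻¹ := inv_nonneg.2 hθpos.le
    linarith
  · have hcc : CC phi D S i0 eta := ⟨hD, h2, hRS, h, hMV'.1⟩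
    obtain ⟨c, n, G, fd⟩ := hFD Eis P L phi D S i0 eta h hcc
    by_cases hbig : big G = ∅
    · have hsm : ∀ i, ¬ 1 < M ((G i).coeff 0) := by
        intro i hi
        have : i ∈ big G := by
          unfold big
          rw [Finset.mem_filter]
          exact ⟨Finset.mem_univ _, hi⟩
        rw [hbig] at this
        exact absurd this (Finset.notMem_empty _)
      have h3 := hNBF Eis P L phi D S i0 eta h c n G fd hsm
      rw [hMQ, hMV'.2] at h3
      linarith
    · have hm1 : 1 ≤ (big G).card := by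
        rw [Nat.one_le_iff_ne_zero, Ne, Finset.card_eq_zero]
        exact hbig
      obtain ⟨hcV, N₁, hN₁, hprod, hlsd, hrk⟩ := hBIG Eis P L phi D S i0 eta h c n G N' bV3 hFP fd
        hV bV3_mono one_le_bV3 (fun x _ => hJW x)
      have hMc : 1 ≤ M c := hcV.1
      have hp0 : 0 ≤ ∏ i, N₁ i := Finset.prod_nonneg fun i _ => le_trans zero_le_one (hN₁ i).1.le
      have hple : ∏ i, N₁ i ≤ N' := by nlinarith
      rw [hMQ] at hlsd
      rw [hMV'.2] at hg
      have hg' : g ≤ 11 ∨ Real.sqrt 3 ^ (g + 1) ≤ θ + 1 / 2 := by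
        rcases hg with hg | hg
        · exact Or.inl (by omega)
        · exact Or.inr (by linarith)
      have hN3 : ∀ i, Real.sqrt 3 ≤ N₁ i := by
        intro i
        obtain ⟨h4, Q', h5⟩ := hN₁ i
        rcases hNVE _ _ h5 with h6 | h6
        · linarith
        · exact h6
      have hfin := hNUM θ (big G).card (snp phi S i0 G).card g N₁ hθ hm1 hN3 (by linarith)
        (fun _ => by linarith) (by linarith) hg'
      have hKR : (Module.finrank ℤ L : ℝ) = rk (supp (cl (co phi i0) S h eta D)) + 1 + g := by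
        exact_mod_cast hK
      linarith

end Pool.Agent.B5.H75
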