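import Pool.Agent.Lib.MP_b5021c_nt.IfaceE5T
import Pool.Agent.Lib.MP_b5021c_nt.B.H40.LoadBase
import Pool.Agent.Lib.MP_b5021c_nt.H05.G0c

/-! Board b5, stage 3, chapter E5T, row T2C (helper75): THE DOUBLE CLOSING T2 of a mutual pair
with facet ports, in the window (PaperE5T.md). -/

namespace Pool.Agent.B5.H75.T2C

open scoped LaurentPolynomial
open Polynomial
open Pool.Agent.MP_b5021c_nt (Eis nz)

section gen

variable {O : Type} [CommRing O] [Coef O] {L : Type} [AddCommGroup L]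

theorem cst_mul_coeff (c : RO O) (G : AO O L) (a : L) : (cst c * G).coeff a = c * G.coeff a := by
  unfold cst
  rw [AddMonoidAlgebra.coeff_single_zero_mul]

theorem cl_cst (k : L →+ ℤ) (S : L) (h : k S = 1) (eta : (RO O)ˣ) (c : RO O) :
    cl k S h eta (cst c) = cst c := by
  rw [cst, cl_single, map_zero, map_zero]
  simp [cst]

theorem supp_cst_mul [IsDomain O] {c : RO O} (hc : c ≠ 0) (G : AO O L) :
    supp (cst c * G) = supp G := by
  ext a
  change (cst c * G).coeff a ≠ 0 ↔ G.coeff a ≠ 0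
  rw [cst_mul_coeff]
  exact ⟨fun h h0 => h (by rw [h0, mul_zero]), fun h => mul_ne_zero hc h⟩

/-- uniqueness of the normal form, one inequality -/
theorem T_eq_le {p q : O[X]} {a b : ℤ} (hp : p.coeff 0 ≠ 0) (hab : a ≤ b)
    (h : (LaurentPolynomial.T a * toLaurent p : RO O) = LaurentPolynomial.T b * toLaurent q) :
    a = b ∧ p = q := by
  obtain ⟨n, rfl⟩ : ∃ n : ℕ, b = a + n := ⟨(b - a).toNat, by omega⟩
  rw [LaurentPolynomial.T_add, mul_assoc] at h
  have h2 : (toLaurent p : RO O) = LaurentPolynomial.T n * toLaurent q :=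
    (LaurentPolynomial.isUnit_T a).mul_left_cancel h
  rw [← toLaurent_X_pow, ← map_mul] at h2
  have h3 : p = X ^ n * q := toLaurent_injective h2
  rcases Nat.eq_zero_or_pos n with hn | hn
  · subst hn
    exact ⟨by simp, by simpa using h3⟩
  · exfalso
    apply hp
    rw [h3, coeff_X_pow_mul', if_neg (by omega)]

theorem T_eq {p q : O[X]} {a b : ℤ} (hp : p.coeff 0 ≠ 0) (hq : q.coeff 0 ≠ 0)
    (h : (LaurentPolynomial.T a * toLaurent p : RO O) = LaurentPolynomial.T b * toLaurent q) :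
    a = b ∧ p = q := by
  rcases le_total a b with hab | hab
  · exact T_eq_le hp hab h
  · obtain ⟨h1, h2⟩ := T_eq_le hq hab h.symm
    exact ⟨h1.symm, h2.symm⟩

theorem filter_mul (c g : ℂ[X]) (hc : ∀ z : ℂ, ‖z‖ < 1 → c.eval z ≠ 0) (h : c * g ≠ 0) :
    (c * g).roots.filter (fun x => ‖x‖ < 1) = g.roots.filter (fun x => ‖x‖ < 1) := by
  rw [roots_mul h, Multiset.filter_add]
  have : c.roots.filter (fun x => ‖x‖ < 1) = 0 := by
    rw [Multiset.filter_eq_nil]
    intro z hz hz1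
    exact hc z hz1 (isRoot_of_mem_roots hz)
  rw [this, zero_add]

/-- a closing loses at least one in the rank if the ray is an exponent -/
theorem rk_cl (hRk : RkS) [IsDomain O] [Module.Free ℤ L] [Module.Finite ℤ L] (k : L →+ ℤ)
    (S : L) (h : k S = 1) (eta : (RO O)ˣ) (G : AO O L) (hS : S ∈ supp G) :
    rk (supp (cl k S h eta G)) + 1 ≤ rk (supp G) := by
  classical
  let N : Submodule ℤ L := Submodule.span ℤ (supp G)
  let kN : N →+ ℤ := k.comp (incl N)
  have hSN : S ∈ N := Submodule.subset_span hS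
  have hne : kN ≠ 0 := by
    intro h0
    have h2 : kN ⟨S, hSN⟩ = 0 := by rw [h0]; rfl
    have h3 : kN ⟨S, hSN⟩ = k S := rfl
    rw [h3, h] at h2
    exact one_ne_zero h2
  obtain ⟨r1, -⟩ := hRk N N
  have e1 := r1 kN hne
  have e2 : rk (supp G) = Module.finrank ℤ N := rfl
  have hle : Submodule.span ℤ (supp (cl k S h eta G)) ≤ N.comap (Ker k).subtype := by
    rw [Submodule.span_le]
    intro b hb
    obtain ⟨a, ha, hab⟩ := H05.supp_cl k S h eta G b hb
    change (b : L) ∈ N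
    rw [← hab, prj_coe]
    exact N.sub_mem (Submodule.subset_span ha) (N.smul_mem _ hSN)
  let g1 : Submodule.span ℤ (supp (cl k S h eta G)) →ₗ[ℤ] N :=
    LinearMap.codRestrict N ((Ker k).subtype.comp
      (Submodule.span ℤ (supp (cl k S h eta G))).subtype) (fun x => hle x.2)
  let g2 : Submodule.span ℤ (supp (cl k S h eta G)) →ₗ[ℤ] Ker kN :=
    LinearMap.codRestrict (Ker kN) g1 (fun x => (x : Ker k).2)
  have hinj : Function.Injective g2 := by
    intro x y hxy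
    have h2 : (((g2 x : Ker kN) : N) : L) = (((g2 y : Ker kN) : N) : L) := by rw [hxy]
    exact Subtype.ext (Subtype.ext h2)
  have e3 : rk (supp (cl k S h eta G)) ≤ Module.finrank ℤ (Ker kN) :=
    LinearMap.finrank_le_finrank_of_injective hinj
  rw [e2, ← e1]
  exact Nat.add_le_add_right e3 1

/-- class `P` from the zero -/
theorem classP_of (m : ℤ) (p : O[X]) (T1 : ℂ) (h0 : ‖(Coef.emb (p.coeff 0) : ℂ)‖ = 1)
    (h1 : 1 < ‖T1‖) (hr : (p.map Coef.emb).roots.filter (fun x => ‖x‖ < 1) = {T1⁻¹}) :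
    ClassP ‖T1‖ (LaurentPolynomial.T m * toLaurent p) :=
  ⟨h1, m, p, rfl, h0, T1⁻¹, by rw [norm_inv], hr⟩

theorem emb_ne {x : O} (h : ‖(Coef.emb x : ℂ)‖ = 1) : x ≠ 0 := by
  rintro rfl
  rw [map_zero, norm_zero] at h
  exact zero_ne_one h

theorem map_ne {p : O[X]} (h : ‖(Coef.emb (p.coeff 0) : ℂ)‖ = 1) :
    p.map (Coef.emb : O →+* ℂ) ≠ 0 := by
  intro h0
  have h1 : (p.map (Coef.emb : O →+* ℂ)).coeff 0 = 0 := by rw [h0, coeff_zero]
  rw [coeff_map] at h1
  rw [h1, norm_zero] at h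
  exact zero_ne_one h

end gen

theorem w_mul {w : Eis} (hw : ‖Eis.emb w‖ = 1) (hwr : (Eis.emb w).re = 1 / 2) :
    w * (1 - w) = 1 := by
  apply Pool.Agent.MP_b5021c_nt.Eis.emb_injective
  rw [map_mul, map_sub, map_one]
  have h1 := Complex.sq_norm (Eis.emb w)
  rw [hw, Complex.normSq_apply, hwr] at h1
  apply Complex.ext
  · simp only [Complex.mul_re, Complex.sub_re, Complex.sub_im, Complex.one_re, Complex.one_im,
      hwr]
    linarith
  · simp only [Complex.mul_im, Complex.sub_re, Complex.sub_im, Complex.one_re, Complex.one_im,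
      hwr]
    ring

/-- The upper bound from T2E in the crude form. -/
theorem crude {θ : ℝ} (hθ : 10 ^ 6 ≤ θ) {κ c T : ℂ} (hκ : ‖κ‖ = 1) (hc : ‖c‖ ≤ 99 / 50)
    (hT : ‖T‖ = θ) {t : ℝ}
    (ht : t ≤ θ - (κ * (c * (starRingEnd ℂ) T)).re / θ + 35 / θ) : t ≤ θ + 2 := by
  have h1 : -(κ * (c * (starRingEnd ℂ) T)).re ≤ 99 / 50 * θ := by
    have h2 := Complex.abs_re_le_norm (κ * (c * (starRingEnd ℂ) T))
    rw [norm_mul, norm_mul, RCLike.norm_conj, hκ, one_mul, hT] at h2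
    have h3 := neg_le_abs (κ * (c * (starRingEnd ℂ) T)).re
    have h4 : ‖c‖ * θ ≤ 99 / 50 * θ := mul_le_mul_of_nonneg_right hc (by linarith)
    linarith
  have hθ0 : 0 < θ := by linarith
  have h2 : -((κ * (c * (starRingEnd ℂ) T)).re / θ) ≤ 99 / 50 := by
    rw [← neg_div, div_le_iff₀ hθ0]
    exact h1
  have h3 : 35 / θ ≤ 35 / 10 ^ 6 := by
    apply div_le_div_of_nonneg_left (by norm_num) (by norm_num) hθ
  linarith

/-- `|f(0)| ≤ |c| + |r(0)|`. -/
theorem f0_le {θ : ℝ} {q f : Eis[X]} {s r : ℂ[X]} {T c : ℂ} (hP : PDat θ q f s r T c) :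
    ‖Eis.emb (f.coeff 0)‖ ≤ ‖c‖ + ‖r.eval 0‖ ∧ ‖s.eval 0‖ = 1 := by
  have h1 : Eis.emb (q.coeff 0) = s.eval 0 := by
    have h2 := congrArg (fun p : ℂ[X] => p.eval 0) hP.qs
    simp only [eval_mul, eval_sub, eval_one, eval_C, eval_X, mul_zero, sub_zero, one_mul] at h2
    rw [← h2, ← coeff_zero_eq_eval_zero, coeff_map]
  have hs : ‖s.eval 0‖ = 1 := by rw [← h1]; exact hP.q0
  refine ⟨?_, hs⟩
  have h3 : Eis.emb (f.coeff 0) = c * s.eval 0 + r.eval 0 := by
    have h2 := congrArg (fun p : ℂ[X] => p.eval 0) hP.fs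
    simp only [eval_add, eval_mul, eval_sub, eval_one, eval_C, eval_X, mul_zero, sub_zero,
      one_mul] at h2
    rw [← h2, ← coeff_zero_eq_eval_zero, coeff_map]
  rw [h3]
  refine (norm_add_le _ _).trans ?_
  rw [norm_mul, hs, mul_one]

/-- (T2H) gives `|f(0)| < 2`. -/
theorem f0_lt (hT2h : T2hS) {θ : ℝ} (hθ : 10 ^ 6 ≤ θ) {q f : Eis[X]} {s r : ℂ[X]} {T c : ℂ}
    (hP : PDat θ q f s r T c) (hc : ‖c‖ ≤ 99 / 50) (κ : ℂ) (hκ : ‖κ‖ = 1)
    (hle : ∀ z : ℂ, ‖z‖ = 1 → ‖(q.map Eis.emb + C κ * X * f.map Eis.emb).eval z‖ ≤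
      ‖(q.map Eis.emb).eval z‖) : ‖Eis.emb (f.coeff 0)‖ < 2 := by
  obtain ⟨h1, hs⟩ := f0_le hP
  have h2 := hT2h (q.map Eis.emb) (f.map Eis.emb) r s T c κ (by rw [hP.nT]; exact hP.th) hκ hP.s0
    hP.qs hP.fs hle
  rw [hs, one_pow, mul_one, hP.nT] at h2
  have hθ0 : 0 < θ := by linarith
  have h3 : 2 * ‖c‖ / θ ≤ 4 / 10 ^ 6 := by
    rw [div_le_div_iff₀ hθ0 (by norm_num)]
    nlinarith [norm_nonneg c]
  have h4 : ‖r.eval 0‖ < 1 / 100 := by
    by_contra hcon
    push Not at hcon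
    have h5 : (1 / 100 : ℝ) ^ 2 ≤ ‖r.eval 0‖ ^ 2 := pow_le_pow_left₀ (by norm_num) hcon 2
    norm_num at h3 h5
    linarith
  linarith

/-- `|q + (1 + w) a| ≤ |q + w a|` implies `|q + a| ≤ |q|` if `|w| = 1`, `Re w = 1/2`. -/
theorem shift_le {w x a : ℂ} (hw : ‖w‖ = 1) (hwr : w.re = 1 / 2)
    (h : ‖x + (1 + w) * a‖ ≤ ‖x + w * a‖) : ‖x + a‖ ≤ ‖x‖ := by
  have h1 : ‖x + (1 + w) * a‖ ^ 2 ≤ ‖x + w * a‖ ^ 2 := pow_le_pow_left₀ (norm_nonneg _) h 2
  have hw2 := Complex.sq_norm w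
  rw [hw] at hw2
  apply le_of_sq_le_sq _ (norm_nonneg _)
  rw [Complex.sq_norm, Complex.sq_norm] at h1
  rw [Complex.sq_norm, Complex.sq_norm]
  simp only [Complex.normSq_apply, Complex.add_re, Complex.add_im, Complex.mul_re,
    Complex.mul_im, Complex.one_re, Complex.one_im, hwr] at h1 hw2 ⊢
  have h4 : w.im ^ 2 = 3 / 4 := by nlinarith
  nlinarith [sq_nonneg a.re, sq_nonneg a.im]

/-- Row T2C. -/
theorem t2c (hT2e : T2eS) (hT2h : T2hS) (hT2o : T2oS) (hTrs : TrsS) (hTre : TreS) (hPCZ : PCZS) (hE2 : E2S)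
    (hEv : EvRS) (hVco : VcoS) (hF1 : F1S) (hInj1 : Inj1S) (hTwf : TwfS) (hInj2 : Inj2S)
    (hRk : RkS) : T2cS := by
  classical
  intro P L _ _ _ _ _ phi D θ S0 S1 e0 e1 e0' e1' w m q f s r T c i0 i1 h0 S1' k1 h1 hFP hK hθ
    hR0 hR1 hm1 hm0 hS1 hk1 he0 he1 hw hwr hq hf hP hc hf0 hrk
  subst hk1
  have hDD := hFP.dd
  have hθ0 : 0 < θ := by linarith
  have hθi : θ⁻¹ ≤ 1 := inv_le_one_of_one_le₀ (by linarith)
  have hf3 : ‖Eis.emb (f.coeff 0)‖ ≤ 3 := by
    obtain ⟨g1, g2⟩ := f0_le hP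
    have g3 := hP.h0
    rw [g2] at g3
    linarith
  have hww := w_mul hw hwr
  have hemb : (Coef.emb : Eis →+* ℂ) = Eis.emb := rfl
  -- the two rays
  have hS0s : S0 ∈ supp D := hR0.1
  have hS1s : S1 ∈ supp D := hR1.1
  have hS0n : S0 ≠ 0 := hR0.2.1
  have hS1n : S1 ≠ 0 := hR1.2.1
  have hB0 : Bin phi S0 := hDD.bin _ hS0s
  have hB1 : Bin phi S1 := hDD.bin _ hS1s
  obtain ⟨hdis, lam, hl0, hl1, hlp⟩ := hTwf Eis P L phi D S0 S1 e0 e1 hFP hR0 hR1 hm1 hm0
  have f1 := (hF1 Eis P L phi D S0 e0 hDD.inj hDD.bin hB0 hS0n S1 hm1).2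
    (fun i => (hdis i).symm)
  have f2 := (hF1 Eis P L phi D S1 e1 hDD.inj hDD.bin hB1 hS1n S0 hm0).2 hdis
  rw [add_comm S1 S0] at f1
  have hA : (e1 : RO Eis) * D.coeff S1 = (e0 : RO Eis) * D.coeff S0 := by
    have g1 : D.coeff S1 = -((e0 : RO Eis) * D.coeff (S0 + S1)) := eq_neg_of_add_eq_zero_left f1
    have g2 : D.coeff S0 = -((e1 : RO Eis) * D.coeff (S0 + S1)) := eq_neg_of_add_eq_zero_left f2
    rw [g1, g2]
    ring
  set A : RO Eis := LaurentPolynomial.T m * toLaurent (X * f) with hAdef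
  have hq0 : ‖(Coef.emb (q.coeff 0) : ℂ)‖ = 1 := hP.q0
  have hq0n : q.coeff 0 ≠ 0 := emb_ne hq0
  have hf0n : f.coeff 0 ≠ 0 := hP.f0
  have hfn : f ≠ 0 := by
    rintro rfl
    exact hf0n (coeff_zero 0)
  have hAn : A ≠ 0 := by
    rw [hAdef]
    apply mul_ne_zero (LaurentPolynomial.isUnit_T m).ne_zero
    intro h2
    rw [← map_zero (toLaurent (R := Eis))] at h2
    exact mul_ne_zero X_ne_zero hfn (toLaurent_injective h2)
  obtain ⟨hD0z, -, -, -, -, -⟩ := hE2 Eis P L phi D hDD (by omega)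
  -- class of the constant coefficient
  have hcP : ClassP θ (D.coeff 0) := by
    rw [hq, ← hP.nT]
    apply classP_of m q T hq0 (by rw [hP.nT]; exact hP.th)
    exact hP.root
  -- the kernel
  obtain ⟨rk1, rk2, rk3, -, -, -, -, -, -, -⟩ := hRk L L
  have hk0 : co phi i0 ≠ 0 := by
    intro h2
    rw [h2] at h0
    exact zero_ne_one h0
  have hKer := rk1 (co phi i0) hk0
  -- the first closing
  obtain ⟨v1, v2, v3, -, v5⟩ := hVco Eis P L phi D S0 e0' hDD.inj hDD.bin hB0 hS0n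
  have hV0 : (cl (co phi i0) S0 h0 e0' D).coeff 0 =
      D.coeff 0 + (e0' : RO Eis) * D.coeff S0 := by
    rw [v5 i0 h0 0]
    have h2 := v3 0 (fun i => Or.inl (by rw [map_zero]; rfl))
    rw [zero_add] at h2
    exact h2
  have hVS1 : (cl (co phi i0) S0 h0 e0' D).coeff S1' =
      (1 - LaurentPolynomial.C w) * D.coeff S1 := by
    rw [v5 i0 h0 S1', hS1, v3 S1 (fun i => (hdis i).symm), he0, add_comm S1 S0, mul_assoc]
    have g1 : (e0 : RO Eis) * D.coeff (S0 + S1) = -D.coeff S1 := eq_neg_of_add_eq_zero_right f1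
    rw [g1]
    ring
  have hAw : (e0' : RO Eis) * D.coeff S0 = LaurentPolynomial.C w * A := by
    rw [he0, mul_assoc, hf]
  have hAw2 : (e1' : RO Eis) * ((1 - LaurentPolynomial.C w) * D.coeff S1) = A := by
    have h2 : (LaurentPolynomial.C w : RO Eis) * (1 - LaurentPolynomial.C w) = 1 := by
      rw [← map_one (LaurentPolynomial.C (R := Eis)), ← map_sub, ← map_mul, hww]
    rw [he1]
    calc LaurentPolynomial.C w * (e1 : RO Eis) * ((1 - LaurentPolynomial.C w) * D.coeff S1)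
        = (LaurentPolynomial.C w * (1 - LaurentPolynomial.C w)) *
          ((e1 : RO Eis) * D.coeff S1) := by ring
      _ = A := by rw [h2, one_mul, hA, hf]
  have hVS1n : (cl (co phi i0) S0 h0 e0' D).coeff S1' ≠ 0 := by
    intro h2
    rw [hVS1] at h2
    rw [h2, mul_zero] at hAw2
    exact hAn hAw2.symm
  -- polynomial of the first value
  have hp1 : D.coeff 0 + (e0' : RO Eis) * D.coeff S0 =
      LaurentPolynomial.T m * toLaurent (q + C w * X * f) := by
    rw [hAw, hq, hAdef]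
    simp only [map_add, map_mul, toLaurent_C, toLaurent_X]
    ring
  have hp1c : (q + C w * X * f).coeff 0 = q.coeff 0 := by
    rw [coeff_add, mul_assoc, coeff_C_mul, coeff_X_mul_zero, mul_zero, add_zero]
  have hp1m : (q + C w * X * f).map Eis.emb =
      q.map Eis.emb + C (Eis.emb w) * X * f.map Eis.emb := by
    simp
  have hnz1 : nz (q.map Eis.emb + C (Eis.emb w) * X * f.map Eis.emb) ≤ 1 := by
    apply hPCZ T⁻¹ (q.map Eis.emb) _ hP.root hP.nz
    · intro z hz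
      rw [eval_mul, eval_mul, eval_C, eval_X, norm_mul, norm_mul, hw, hz, one_mul, one_mul]
      exact hP.le z hz
    · rw [← hp1m]
      apply map_ne
      rw [hp1c]
      exact hq0
  obtain ⟨T1, hT1r, hT1l, hT1u⟩ := hT2e θ q f s r T c (Eis.emb w) (by linarith) hP
    (by linarith) (by linarith) hnz1
  have hT1c : ‖T1‖ ≤ θ + 2 := crude hθ hw hc hP.nT hT1u
  have hcP1 : ClassP ‖T1‖ (D.coeff 0 + (e0' : RO Eis) * D.coeff S0) := by
    rw [hp1]
    apply classP_of m _ T1 _ (by linarith)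
    · rw [hemb, hp1m]
      exact hT1r
    · rw [hp1c]
      exact hq0
  -- rank of the first closing
  have hS1V : S1' ∈ supp (cl (co phi i0) S0 h0 e0' D) := hVS1n
  have hrk1 := rk_cl hRk (co (phO phi S0 i0) i1) S1' h1 e1' (cl (co phi i0) S0 h0 e0' D) hS1V
  have hrk2 : rk (supp (cl (co phi i0) S0 h0 e0' D)) ≤ Module.finrank ℤ (Ker (co phi i0)) := by
    obtain ⟨-, -, t3, -, -, -, -, -, -, -⟩ := hRk (Ker (co phi i0)) (Ker (co phi i0))
    exact t3 _
  have hrkV : Module.finrank ℤ L = rk (supp (cl (co phi i0) S0 h0 e0' D)) + 1 := by omega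
  have hIm1 : ImS phi S0 := (hInj1 Eis P L phi D hFP S0 hR0).1
  have hfw : (e0' : RO Eis) * D.coeff S0 =
      LaurentPolynomial.T m * toLaurent (X * (C w * f)) := by
    rw [hAw, hAdef, map_mul (toLaurent) X (C w * f), map_mul (toLaurent) (C w) f, toLaurent_C,
      map_mul (toLaurent) X f]
    ring
  have hfw0 : ‖(Coef.emb ((C w * f).coeff 0) : ℂ)‖ = ‖Eis.emb (f.coeff 0)‖ := by
    rw [coeff_C_mul, map_mul, norm_mul]
    have h2 : ‖(Coef.emb w : ℂ)‖ = 1 := hw
    rw [h2, one_mul]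
    rfl
  have hrkVr : (Module.finrank ℤ L : ℝ) = (rk (supp (cl (co phi i0) S0 h0 e0' D)) : ℝ) + 1 := by
    exact_mod_cast hrkV
  rcases hT2o Eis P L phi D S0 i0 e0' h0 θ ‖T1‖ m q (C w * f) hDD (by omega) hR0 hIm1 hcP hq hfw
    hq0 hcP1 (by rw [hfw0]; linarith) with hα | ⟨hZ, D', b, e, hD', hRb, hD'0, hD'b, hD'e⟩ |
    ⟨c1, G, hc1, hcl, hGP, -, hG⟩
  · -- no big factor
    left
    linarith
  · -- small factor
    left
    have hf1 : ‖Eis.emb (f.coeff 0)‖ = 1 := by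
      refine hf0.resolve_right (not_le.2 (f0_lt hT2h hθ hP hc (Eis.emb w) hw ?_))
      intro z hz
      obtain ⟨-, -, -, -, -, hray⟩ := hE2 Eis P L phi D' hD' (by omega)
      have g1 := (hray b hRb).1 ⟨z, mem_sphere_zero_iff_norm.2 hz⟩
      have g2 : ‖evR (⟨z, mem_sphere_zero_iff_norm.2 hz⟩ : Circle) (D'.coeff b)‖ =
          ‖evR (⟨z, mem_sphere_zero_iff_norm.2 hz⟩ : Circle) ((e : RO Eis) * D'.coeff b)‖ := by
        rw [map_mul, norm_mul, (hEv Eis).2.1 _ _ e.isUnit, one_mul]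
      rw [g2, hD'b, map_neg, norm_neg, hp1, H40.norm_evR, hD'0, hq, H40.norm_evR] at g1
      rw [← hp1m]
      exact g1
    rw [hf1] at hfw0
    apply hTre Eis P L phi D' b e θ hD' (by omega) hRb (by linarith)
    · rw [hD'0]; exact hcP
    · rw [hD'0, ← hD'0, hD'e, hD'0]
      refine ⟨m, q, -(C w * f), hq, ?_, hq0, ?_, ?_⟩
      · rw [hfw, map_neg, map_mul (toLaurent) X, toLaurent_X, LaurentPolynomial.T_add]
        ring
      · rw [coeff_neg, map_neg, norm_neg]
        exact hfw0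
      · intro z hz
        rw [Polynomial.map_neg, eval_neg, neg_ne_zero]
        exact hZ z hz
  -- the second closing
  have hG := hG hrkV
  obtain ⟨-, kc, cp, hc1e, hcp0, hcpz⟩ := hc1
  obtain ⟨-, m', q', hG0, hq'0, w', hw', hq'r⟩ := id hGP
  have hcp0n : cp.coeff 0 ≠ 0 := emb_ne hcp0
  have hq'0n : q'.coeff 0 ≠ 0 := emb_ne hq'0
  have hc1n : c1 ≠ 0 := by
    rw [hc1e]
    apply mul_ne_zero (LaurentPolynomial.isUnit_T kc).ne_zero
    intro h2
    rw [← map_zero (toLaurent (R := Eis))] at h2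
    apply hcp0n
    rw [toLaurent_injective h2, coeff_zero]
  have hG00 : c1 * G.coeff 0 = D.coeff 0 + LaurentPolynomial.C w * A := by
    rw [← cst_mul_coeff, ← hcl, hV0, hAw]
  have hGS : c1 * ((e1' : RO Eis) * G.coeff S1') = A := by
    rw [mul_left_comm, ← cst_mul_coeff, ← hcl, hVS1, hAw2]
  -- factorizations of the polynomials
  obtain ⟨hkm, hcq⟩ : kc + m' = m ∧ cp * q' = q + C w * X * f := by
    apply T_eq
    · rw [mul_coeff_zero]
      exact mul_ne_zero hcp0n hq'0n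
    · rw [hp1c]; exact hq0n
    · rw [← hp1, hAw, ← hG00, hc1e, hG0, LaurentPolynomial.T_add, map_mul]
      ring
  have hGSn : (e1' : RO Eis) * G.coeff S1' ≠ 0 := by
    intro h2
    rw [h2, mul_zero] at hGS
    exact hAn hGS.symm
  obtain ⟨a1, f', hf'e, hf'0⟩ := H40.exists_normal _ hGSn
  obtain ⟨ha1, hcf⟩ : kc + a1 = m + 1 ∧ cp * f' = f := by
    apply T_eq
    · rw [mul_coeff_zero]
      exact mul_ne_zero hcp0n hf'0
    · exact hf0n
    · have h2 := hGS
      rw [hf'e, hc1e, hAdef, map_mul (toLaurent) X, toLaurent_X] at h2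
      rw [LaurentPolynomial.T_add, map_mul, LaurentPolynomial.T_add]
      calc _ = LaurentPolynomial.T kc * toLaurent cp *
            (LaurentPolynomial.T a1 * toLaurent f') := by ring
        _ = _ := by rw [h2]; ring
  have ha1' : a1 = m' + 1 := by omega
  subst ha1'
  have hf'e2 : (e1' : RO Eis) * G.coeff S1' =
      LaurentPolynomial.T m' * toLaurent (X * f') := by
    rw [hf'e, map_mul (toLaurent) X, toLaurent_X, LaurentPolynomial.T_add]
    ring
  have hf'n : ‖(Coef.emb (f'.coeff 0) : ℂ)‖ = ‖Eis.emb (f.coeff 0)‖ := by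
    have h2 : ‖(Coef.emb ((cp * f').coeff 0) : ℂ)‖ = ‖Eis.emb (f.coeff 0)‖ := by rw [hcf]; rfl
    rw [mul_coeff_zero, map_mul, norm_mul, hcp0, one_mul] at h2
    exact h2
  -- the ray of `G`
  have hS1'n : S1' ≠ 0 := by
    intro h2
    apply hS1n
    rw [← hS1, h2]
    rfl
  have hSG : S1' ∈ supp G := by
    intro h2
    apply hGSn
    change G.coeff S1' = 0 at h2
    rw [h2, mul_zero]
  have hRG : Ray G S1' := by
    refine ⟨hSG, hS1'n, lam.comp (incl (Ker (co phi i0))), ?_, ?_⟩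
    · change lam (S1' : L) = 0
      rw [hS1, hl1]
    · intro a ha ha0 ha1
      change 0 < lam (a : L)
      have h2 : (cl (co phi i0) S0 h0 e0' D).coeff a ≠ 0 := by
        rw [hcl, cst_mul_coeff]
        exact mul_ne_zero hc1n ha
      rw [v5 i0 h0 a] at h2
      obtain ⟨k, hk⟩ := v2 _ h2
      have hka : co phi i0 (a : L) = 0 := mem_Ker.1 a.2
      have hk1 : co phi i0 S1 = 0 := by
        rw [← hS1]; exact mem_Ker.1 S1'.2
      have h3 : co phi i0 ((a : L) + k • S0) = k := by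
        rw [map_add, hka, map_zsmul, h0]; simp
      have h4 := hlp _ hk ?_ ?_ ?_ ?_
      · rw [map_add, map_zsmul, hl0, smul_zero, add_zero] at h4
        exact h4
      · intro h5
        rw [h5, map_zero] at h3
        rw [← h3, zero_smul, add_zero] at h5
        exact ha0 (Subtype.ext h5)
      · intro h5
        rw [h5, h0] at h3
        rw [← h3, one_smul] at h5
        exact ha0 (Subtype.ext (by simpa using h5))
      · intro h5
        rw [h5, hk1] at h3
        rw [← h3, zero_smul, add_zero, ← hS1] at h5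
        exact ha1 (Subtype.ext h5)
      · intro h5
        rw [h5, map_add, h0, hk1, add_zero] at h3
        rw [← h3, one_smul, add_comm, ← hS1] at h5
        exact ha1 (Subtype.ext (add_left_cancel h5))
  -- the ports outside both rays
  have hIm2 : ImS (phO phi S0 i0) S1' := by
    intro b hb
    obtain ⟨k, l, hkl⟩ := hInj2 Eis P L phi D S0 S1 e0 e1 hFP hR0 hR1 hm1 hm0 (b : L) (by
      intro i hi0 hi1
      have h2 : phO phi S0 i0 S1' i = 0 := by
        change (if phi S0 i = 0 then phi (S1' : L) i else 0) = 0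
        rw [if_pos hi0, hS1, hi1]
      have h3 := hb i h2
      change (if phi S0 i = 0 then phi (b : L) i else 0) = 0 at h3
      rwa [if_pos hi0] at h3)
    have hkb : co phi i0 (b : L) = 0 := mem_Ker.1 b.2
    have hk1 : co phi i0 S1 = 0 := by
      rw [← hS1]; exact mem_Ker.1 S1'.2
    have h3 : k = 0 := by
      rw [hkl, map_add, map_zsmul, map_zsmul, h0, hk1] at hkb
      simpa using hkb
    refine ⟨l, Subtype.ext ?_⟩
    rw [hkl, h3, zero_smul, zero_add, ← hS1]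
    rfl
  -- the second value
  have hgk : 2 ≤ Module.finrank ℤ (Ker (co phi i0)) := by omega
  obtain ⟨hG0z, -, -, -, -, hGray⟩ := hE2 Eis P (Ker (co phi i0)) (phO phi S0 i0) G hG hgk
  have hGle := (hGray S1' hRG).1
  have hEvE := hEv Eis
  have hle2 : ∀ z : ℂ, ‖z‖ = 1 → ‖(X * f'.map Eis.emb).eval z‖ ≤ ‖(q'.map Eis.emb).eval z‖ := by
    intro z hz
    have h2 := hGle ⟨z, mem_sphere_zero_iff_norm.2 hz⟩
    rw [hG0, H40.norm_evR] at h2
    have h3 : ‖evR (⟨z, mem_sphere_zero_iff_norm.2 hz⟩ : Circle) (G.coeff S1')‖ =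
        ‖evR (⟨z, mem_sphere_zero_iff_norm.2 hz⟩ : Circle) ((e1' : RO Eis) * G.coeff S1')‖ := by
      rw [map_mul, norm_mul, hEvE.2.1 _ _ e1'.isUnit, one_mul]
    rw [h3, hf'e2, H40.norm_evR, Polynomial.map_mul, map_X] at h2
    exact h2
  have hq'z : ∀ z : ℂ, ‖z‖ = 1 → (q'.map Eis.emb).eval z ≠ 0 := by
    intro z hz h2
    apply hG0z ⟨z, mem_sphere_zero_iff_norm.2 hz⟩
    rw [← norm_eq_zero, hG0, H40.norm_evR]
    rw [norm_eq_zero]
    exact h2
  have hr2c : (q' + X * f').coeff 0 = q'.coeff 0 := by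
    rw [coeff_add, coeff_X_mul_zero, add_zero]
  have hr2m : (q' + X * f').map Eis.emb = q'.map Eis.emb + X * f'.map Eis.emb := by
    simp
  have hr2n : (q' + X * f').map Eis.emb ≠ 0 := by
    apply map_ne
    rw [hr2c]
    exact hq'0
  have hnz2 : (((q' + X * f').map Eis.emb).roots.filter (fun x => ‖x‖ < 1)).card ≤ 1 := by
    rw [hr2m]
    have h9 := hPCZ w' (q'.map Eis.emb) (X * f'.map Eis.emb) hq'r hq'z hle2
      (by rw [← hr2m]; exact hr2n)
    exact h9
  have hfac : q.map Eis.emb + C (1 + Eis.emb w) * X * f.map Eis.emb =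
      cp.map Eis.emb * (q' + X * f').map Eis.emb := by
    have h2 : cp * (q' + X * f') = q + C (1 + w) * X * f := by
      calc cp * (q' + X * f') = cp * q' + X * (cp * f') := by ring
        _ = _ := by rw [hcq, hcf, C_add, C_1]; ring
    rw [← Polynomial.map_mul, h2]
    simp
  have hcpn : cp.map Eis.emb ≠ 0 := map_ne hcp0
  have hfilt : (q.map Eis.emb + C (1 + Eis.emb w) * X * f.map Eis.emb).roots.filter
      (fun x => ‖x‖ < 1) = ((q' + X * f').map Eis.emb).roots.filter (fun x => ‖x‖ < 1) := by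
    rw [hfac]
    exact filter_mul _ _ hcpz (mul_ne_zero hcpn hr2n)
  have hnz3 : nz (q.map Eis.emb + C (1 + Eis.emb w) * X * f.map Eis.emb) ≤ 1 := by
    have h2 : nz (q.map Eis.emb + C (1 + Eis.emb w) * X * f.map Eis.emb) =
      ((q.map Eis.emb + C (1 + Eis.emb w) * X * f.map Eis.emb).roots.filter
        (fun x => ‖x‖ < 1)).card := rfl
    rw [h2, hfilt]
    exact hnz2
  have hκ2 : ‖1 + Eis.emb w‖ ≤ 2 := by
    refine (norm_add_le _ _).trans ?_
    rw [norm_one, hw]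
    norm_num
  obtain ⟨T2, hT2r, hT2l, hT2u⟩ := hT2e θ q f s r T c (1 + Eis.emb w) (by linarith) hP
    (by linarith) hκ2 hnz3
  have hp2 : G.coeff 0 + (e1' : RO Eis) * G.coeff S1' =
      LaurentPolynomial.T m' * toLaurent (q' + X * f') := by
    rw [hf'e2, hG0, map_add]
    ring
  have hcP2 : ClassP ‖T2‖ (G.coeff 0 + (e1' : RO Eis) * G.coeff S1') := by
    rw [hp2]
    apply classP_of m' _ T2 _ (by linarith)
    · rw [hemb, ← hfilt]
      exact hT2r
    · rw [hr2c]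
      exact hq'0
  -- the rank of the second closing
  have hcl2 : cl (co (phO phi S0 i0) i1) S1' h1 e1' (cl (co phi i0) S0 h0 e0' D) =
      cst c1 * cl (co (phO phi S0 i0) i1) S1' h1 e1' G := by
    rw [hcl, map_mul, cl_cst]
  have hrk3 : Module.finrank ℤ (Ker (co phi i0)) =
      rk (supp (cl (co (phO phi S0 i0) i1) S1' h1 e1' G)) + 1 := by
    rw [hcl2, supp_cst_mul hc1n] at hrk
    omega
  have hrk3r : ((Module.finrank ℤ (Ker (co phi i0)) : ℕ) : ℝ) =
      (rk (supp (cl (co (phO phi S0 i0) i1) S1' h1 e1' G)) : ℝ) + 1 := by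
    exact_mod_cast hrk3
  rcases hT2o Eis P (Ker (co phi i0)) (phO phi S0 i0) G S1' i1 e1' h1 ‖T1‖ ‖T2‖ m' q' f' hG
    (by omega) hRG hIm2 hGP hG0 hf'e2 hq'0 hcP2 (by rw [hf'n]; linarith) with hα |
    ⟨hZ, D', b, e, hD', hRb, hD'0, hD'b, hD'e⟩ | ⟨c2, G2, hc2, hcl3, hG2P, -, hG2⟩
  · -- no big factor
    left
    have h2 : ((Module.finrank ℤ (Ker (co phi i0)) : ℕ) : ℝ) + 1 = Module.finrank ℤ L := by
      exact_mod_cast hKer
    linarith
  · -- small factor
    left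
    have h2 : ((Module.finrank ℤ (Ker (co phi i0)) : ℕ) : ℝ) + 1 = Module.finrank ℤ L := by
      exact_mod_cast hKer
    have hw0 : (Coef.emb w : ℂ).re = 1 / 2 := hwr
    have hf1 : ‖Eis.emb (f.coeff 0)‖ = 1 := by
      refine hf0.resolve_right (not_le.2 (f0_lt hT2h hθ hP hc 1 norm_one ?_))
      intro z hz
      obtain ⟨-, -, -, -, -, hray⟩ := hE2 Eis P (Ker (co phi i0)) (phO phi S0 i0) D' hD' hgk
      have g1 := (hray b hRb).1 ⟨z, mem_sphere_zero_iff_norm.2 hz⟩
      have g2 : ‖evR (⟨z, mem_sphere_zero_iff_norm.2 hz⟩ : Circle) (D'.coeff b)‖ =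
          ‖evR (⟨z, mem_sphere_zero_iff_norm.2 hz⟩ : Circle) ((e : RO Eis) * D'.coeff b)‖ := by
        rw [map_mul, norm_mul, (hEv Eis).2.1 _ _ e.isUnit, one_mul]
      rw [g2, hD'b, map_neg, norm_neg, hp2, H40.norm_evR, hD'0, hG0, H40.norm_evR] at g1
      have g3 : ‖(cp.map Eis.emb * (q' + X * f').map Eis.emb).eval z‖ ≤
          ‖(cp.map Eis.emb * q'.map Eis.emb).eval z‖ := by
        rw [eval_mul, eval_mul, norm_mul, norm_mul]
        exact mul_le_mul_of_nonneg_left g1 (norm_nonneg _)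
      rw [← hfac, ← Polynomial.map_mul, hcq, hp1m] at g3
      simp only [eval_add, eval_mul, eval_C, eval_X, mul_assoc] at g3
      have g4 := shift_le hw hwr g3
      simp only [eval_add, eval_mul, eval_C, eval_X, mul_assoc, one_mul]
      exact g4
    rw [hf1] at hf'n
    have hf0' : ‖(Coef.emb (f.coeff 0) : ℂ)‖ = 1 := hf1
    have hval : D'.coeff 0 + (e : RO Eis) * D'.coeff b =
        LaurentPolynomial.T (m' + 1) * toLaurent (-f') := by
      rw [hD'e, hf'e, map_neg, mul_neg]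
    have hcval : c1 * (D'.coeff 0 + (e : RO Eis) * D'.coeff b) = -A := by
      rw [hD'e, mul_neg, hGS]
    have h3 := hTrs Eis P (Ker (co phi i0)) (phO phi S0 i0) D' b e θ ‖T1‖ (D.coeff 0) c1 w hD'
      (by omega) hRb (by linarith) hcP hD0z (by rw [hD'0]; exact hGP) ?_ (by rw [hw0]; norm_num)
      ?_ ?_
    · rw [hw0] at h3
      linarith
    · refine ⟨m', q', -f', by rw [hD'0, hG0], hval, hq'0, ?_, ?_⟩
      · rw [coeff_neg, map_neg, norm_neg]
        exact hf'n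
      · intro z hz
        rw [Polynomial.map_neg, eval_neg, neg_ne_zero]
        exact hZ z hz
    · rw [hcval, hD'0, hG00]
      ring
    · refine ⟨m, q, -f, hq, ?_, hq0, ?_, ?_⟩
      · rw [hcval, hAdef, map_neg, map_mul (toLaurent) X, toLaurent_X, LaurentPolynomial.T_add]
        ring
      · rw [coeff_neg, map_neg, norm_neg]
        exact hf0'
      · intro z hz
        rw [Polynomial.map_neg, eval_neg, neg_ne_zero, ← hcf, Polynomial.map_mul, eval_mul]
        exact mul_ne_zero (hcpz z hz) (hZ z hz)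
  · -- one big factor
    right
    refine ⟨‖T2‖, hT2u, fun B hB => ?_⟩
    have h2 := hB P (Ker (co (phO phi S0 i0) i1)) (phO (phO phi S0 i0) S1' i1) G2 (hG2 hrk3) hG2P
    have h3 : co (phO phi S0 i0) i1 ≠ 0 := by
      intro h4
      rw [h4] at h1
      exact zero_ne_one h1
    obtain ⟨t1, -⟩ := hRk (Ker (co phi i0)) (Ker (co phi i0))
    have h5 := t1 _ h3
    have h6 : ((Module.finrank ℤ (Ker (co (phO phi S0 i0) i1)) : ℕ) : ℝ) + 2 =
        Module.finrank ℤ L := by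
      have : Module.finrank ℤ (Ker (co (phO phi S0 i0) i1)) + 2 = Module.finrank ℤ L := by omega
      exact_mod_cast this
    linarith

end Pool.Agent.B5.H75.T2C
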